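import Pool.Agent.H57.UGB.Defs

/-!
# The slanted fields span the tangent vectors along the fibre (SPAN)
-/

set_option autoImplicit false

open MvPolynomial

namespace Pool.Agent.H57.UGB

open Pool.Agent.H47.KB

namespace SpanM

variable {n k : ℕ} {R : Type} [CommRing R] [Algebra ℂ R]

/-- `D` is a derivation along the ring homomorphism `φ`. -/
structure IsD (φ : JR n k →ₐ[ℂ] R) (D : JR n k → R) : Prop where
  add : ∀ P Q, D (P + Q) = D P + D Q
  const : ∀ z : ℂ, D (C z) = 0
  mul : ∀ P Q, D (P * Q) = φ P * D Q + φ Q * D P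

namespace IsD

variable {φ : JR n k →ₐ[ℂ] R} {D D' : JR n k → R}

theorem of_der (φ : JR n k →ₐ[ℂ] R) (V : Derivation ℂ (JR n k) (JR n k)) : IsD φ fun P => φ (V P) where
  add P Q := by rw [map_add, map_add]
  const z := by
    rw [← algebraMap_eq, Derivation.map_algebraMap, map_zero]
  mul P Q := by
    rw [Derivation.leibniz, smul_eq_mul, smul_eq_mul, map_add, map_mul, map_mul]

theorem zero (φ : JR n k →ₐ[ℂ] R) : IsD φ fun _ => 0 where
  add _ _ := by simp
  const _ := rfl
  mul _ _ := by simp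

theorem sum' (h : IsD φ D) (h' : IsD φ D') : IsD φ fun P => D P + D' P where
  add P Q := by
    rw [h.add, h'.add]
    ring
  const z := by rw [h.const, h'.const, add_zero]
  mul P Q := by
    rw [h.mul, h'.mul]
    ring

theorem scale (h : IsD φ D) (r : R) : IsD φ fun P => r * D P where
  add P Q := by
    rw [h.add]
    ring
  const z := by rw [h.const, mul_zero]
  mul P Q := by
    rw [h.mul]
    ring

theorem finset {ι : Type} (s : Finset ι) (D : ι → JR n k → R) (h : ∀ i ∈ s, IsD φ (D i)) :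
    IsD φ fun P => ∑ i ∈ s, D i P := by
  classical
  induction s using Finset.induction_on with
  | empty => simpa using zero φ
  | insert a s ha ih =>
    simp only [Finset.sum_insert ha]
    exact (h a (Finset.mem_insert_self _ _)).sum' (ih fun i hi => h i (Finset.mem_insert_of_mem hi))

theorem list (w : List (R × Derivation ℂ (JR n k) (JR n k))) :
    IsD φ fun P => (w.map fun p => p.1 * φ (p.2 P)).sum := by
  induction w with
  | nil => simpa using zero φ
  | cons a w ih =>
    simp only [List.map_cons, List.sum_cons]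
    exact ((of_der φ a.2).scale a.1).sum' ih

theorem ext (h : IsD φ D) (h' : IsD φ D') (hX : ∀ v, D (X v) = D' (X v)) (P : JR n k) : D P = D' P := by
  induction P using MvPolynomial.induction_on with
  | C z => rw [h.const, h'.const]
  | add P Q hP hQ => rw [h.add, h'.add, hP, hQ]
  | mul_X P v hP => rw [h.mul, h'.mul, hP, hX]

/-- a derivation vanishing on the `X_{j,s}` has value `0` on the coefficients of the products of the `uy j` -/
theorem coeff_prod (h : IsD φ D) (hX : ∀ v, D (X (Sum.inr v)) = 0) (α : Fin (n + 2) →₀ ℕ) (s : ℕ) :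
    D (PowerSeries.coeff s (α.prod fun j e => uy n k j ^ e)) = 0 := by
  classical
  let S : Subalgebra ℂ (JR n k) :=
    { carrier := {P | D P = 0}
      mul_mem' := fun {P Q} hP hQ => by
        change D (P * Q) = 0
        rw [h.mul, show D P = 0 from hP, show D Q = 0 from hQ]
        simp
      add_mem' := fun {P Q} hP hQ => by
        change D (P + Q) = 0
        rw [h.add, show D P = 0 from hP, show D Q = 0 from hQ, add_zero]
      algebraMap_mem' := fun z => h.const z }
  let y0 : Fin (n + 2) → PowerSeries S := fun j =>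
    PowerSeries.mk fun s => if h' : s < k + 1 then ⟨X (Sum.inr (j, ⟨s, h'⟩)), hX _⟩ else 0
  have h1 : ∀ j, PowerSeries.map (S.val : S →+* JR n k) (y0 j) = uy n k j := by
    intro j
    ext s : 1
    rw [PowerSeries.coeff_map]
    simp only [y0, uy, PowerSeries.coeff_mk]
    split_ifs with h'
    · rfl
    · simp
  have h2 : PowerSeries.map (S.val : S →+* JR n k) (α.prod fun j e => y0 j ^ e) =
      α.prod fun j e => uy n k j ^ e := by
    rw [Finsupp.prod, Finsupp.prod, map_prod]
    refine Finset.prod_congr rfl fun j _ => ?_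
    rw [map_pow, h1]
  rw [← h2, PowerSeries.coeff_map]
  exact (PowerSeries.coeff s (α.prod fun j e => y0 j ^ e)).2

end IsD

theorem aeval_gen {R : Type} [CommRing R] (d : ℕ) (a : (Fin (n + 2) →₀ ℕ) → R)
    (y : Fin (n + 2) → PowerSeries R) (s : ℕ) : PowerSeries.coeff s (aeval y (gen n d a)) =
      ∑ α ∈ (Finset.univ : Finset (Fin (n + 2))).finsuppAntidiag d,
        a α * PowerSeries.coeff s (α.prod fun j e => y j ^ e) := by
  unfold gen
  rw [map_sum, map_sum]
  refine Finset.sum_congr rfl fun α _ => ?_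
  rw [aeval_monomial]
  exact PowerSeries.coeff_C_mul s _ _

theorem coeff_pt_prod (a : (Fin (n + 2) →₀ ℕ) → R) (y : Fin (n + 2) → PowerSeries R) (α : Fin (n + 2) →₀ ℕ)
    {s : ℕ} (hs : s ≤ k) : pt (k := k) a y (PowerSeries.coeff s (α.prod fun j e => uy n k j ^ e)) =
      PowerSeries.coeff s (α.prod fun j e => y j ^ e) := by
  classical
  set φ : JR n k →+* R := (pt a y : JR n k →ₐ[ℂ] R).toRingHom with hφ
  let I : Ideal (PowerSeries R) := Ideal.span {PowerSeries.X ^ (k + 1)}
  have h1 : ∀ f g : PowerSeries R, (∀ s ≤ k, PowerSeries.coeff s f = PowerSeries.coeff s g) ↔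
      Ideal.Quotient.mk I f = Ideal.Quotient.mk I g := by
    intro f g
    rw [Ideal.Quotient.eq, Ideal.mem_span_singleton, PowerSeries.X_pow_dvd_iff]
    constructor
    · intro h m hm
      rw [map_sub, h m (by omega), sub_self]
    · intro h s hs
      have := h s (by omega)
      rwa [map_sub, sub_eq_zero] at this
  have h2 : ∀ j, Ideal.Quotient.mk I (PowerSeries.map φ (uy n k j)) = Ideal.Quotient.mk I (y j) := by
    intro j
    refine (h1 _ _).1 fun s hs => ?_
    rw [PowerSeries.coeff_map]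
    simp only [uy, PowerSeries.coeff_mk]
    rw [dif_pos (Nat.lt_succ_of_le hs)]
    simp [hφ, pt]
  have h3 : φ (PowerSeries.coeff s (α.prod fun j e => uy n k j ^ e)) =
      PowerSeries.coeff s (PowerSeries.map φ (α.prod fun j e => uy n k j ^ e)) := by
    rw [PowerSeries.coeff_map]
  have h4 : φ (PowerSeries.coeff s (α.prod fun j e => uy n k j ^ e)) =
      PowerSeries.coeff s (α.prod fun j e => y j ^ e) := by
    rw [h3]
    refine (h1 _ _).2 ?_ s hs
    rw [Finsupp.prod, Finsupp.prod, map_prod, map_prod, map_prod]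
    refine Finset.prod_congr rfl fun j _ => ?_
    rw [map_pow, map_pow, map_pow, h2]
  exact h4

/-- the value on the equations of a derivation vanishing on the `X_{j,s}` -/
theorem IsD.Fc (d : ℕ) (a : (Fin (n + 2) →₀ ℕ) → R) (y : Fin (n + 2) → PowerSeries R) {D : JR n k → R}
    (h : IsD (pt a y) D) (hX : ∀ v, D (X (Sum.inr v)) = 0) {s : ℕ} (hs : s ≤ k) :
    D (Fc n d k s) = PowerSeries.coeff s (aeval y (gen n d fun α => D (X (Sum.inl α)))) := by
  have hsum : ∀ {ι : Type} (t : Finset ι) (f : ι → JR n k), D (∑ i ∈ t, f i) = ∑ i ∈ t, D (f i) := by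
    classical
    intro ι t f
    induction t using Finset.induction_on with
    | empty => simpa using h.const 0
    | insert a t ha ih => rw [Finset.sum_insert ha, Finset.sum_insert ha, h.add, ih]
  rw [UGB.Fc, aeval_gen, aeval_gen, hsum]
  refine Finset.sum_congr rfl fun α _ => ?_
  rw [h.mul, h.coeff_prod hX, mul_zero, zero_add, coeff_pt_prod a y α hs, mul_comm]
  rfl

end SpanM

open SpanM in
/-- SPAN from FLD1 and VSP -/
theorem span_fld_of (n d k : ℕ) (l : Fin (n + 2))
    (R : Type) [CommRing R] [Algebra ℂ R] (a : (Fin (n + 2) →₀ ℕ) → R) (y : Fin (n + 2) → PowerSeries R)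
    (hfld1 : ∀ j : Fin (n + 2), j ≠ 0 → ∀ s0 : Fin (k + 1), s0 ≠ 0 →
      ∃ V : Derivation ℂ (JR n k) (JR n k), IsFld n d k V ∧
        (∀ v : Fin (n + 2) × Fin (k + 1),
          V (X (Sum.inr v)) = if v = (j, s0) then PowerSeries.coeff 1 (uy n k l) ^ (2 * k) else 0) ∧
        ∀ α ∉ (Finset.univ : Finset (Fin (n + 2))).finsuppAntidiag d, V (X (Sum.inl α)) = 0)
    (hvsp : ∀ g : (Fin (n + 2) →₀ ℕ) → R,
      (∀ α ∉ (Finset.univ : Finset (Fin (n + 2))).finsuppAntidiag d, g α = 0) →
      (∀ s ≤ k, PowerSeries.coeff s (aeval y (gen n d g)) = 0) →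
      ∃ (N : ℕ) (w : List (R × Derivation ℂ (JR n k) (JR n k))),
        (∀ p ∈ w, IsFld n d k p.2 ∧ ∀ v, p.2 (X (Sum.inr v)) = 0) ∧
        ∀ α, PowerSeries.coeff 1 (y l) ^ N * g α = (w.map fun p => p.1 * pt a y (p.2 (X (Sum.inl α)))).sum)
    (hk : 1 ≤ k) (hy : y 0 = 1) (θ : Fin (n + 2) × Fin (k + 1) → R) (h0 : ∀ s, θ (0, s) = 0)
    (h1 : ∀ j, θ (j, 0) = 0)
    (hT : ∀ s ≤ k, ∑ v, pt a y (pderiv (Sum.inr v) (Fc n d k s)) * θ v = 0) :
    ∃ (N : ℕ) (w : List (R × Derivation ℂ (JR n k) (JR n k))), (∀ p ∈ w, IsFld n d k p.2) ∧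
      ∀ P : JR n k, PowerSeries.coeff 1 (y l) ^ N * ∑ v, pt a y (pderiv (Sum.inr v) P) * θ v =
        (w.map fun p => p.1 * pt a y (p.2 P)).sum := by
  classical
  set η : R := PowerSeries.coeff 1 (y l) with hη
  let G : Finset (Fin (n + 2) × Fin (k + 1)) := Finset.univ.filter fun v => v.1 ≠ 0 ∧ v.2 ≠ 0
  have hG : ∀ v ∉ G, θ v = 0 := by
    rintro ⟨j, s⟩ hv
    simp only [G, Finset.mem_filter, Finset.mem_univ, true_and, not_and_or, not_not] at hv
    rcases hv with hv | hv
    · rw [show j = 0 from hv, h0]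
    · rw [show s = 0 from hv, h1]
  have hV : ∀ v : Fin (n + 2) × Fin (k + 1), ∃ V : Derivation ℂ (JR n k) (JR n k), v ∈ G → IsFld n d k V ∧
      (∀ v' : Fin (n + 2) × Fin (k + 1),
        V (X (Sum.inr v')) = if v' = v then PowerSeries.coeff 1 (uy n k l) ^ (2 * k) else 0) ∧
      ∀ α ∉ (Finset.univ : Finset (Fin (n + 2))).finsuppAntidiag d, V (X (Sum.inl α)) = 0 := by
    rintro ⟨j, s⟩
    by_cases hv : (j, s) ∈ G
    · have hv' := hv
      simp only [G, Finset.mem_filter, Finset.mem_univ, true_and] at hv'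
      obtain ⟨V, h⟩ := hfld1 j hv'.1 s hv'.2
      exact ⟨V, fun _ => h⟩
    · exact ⟨0, fun h => absurd h hv⟩
  choose V hV using hV
  have hpη : pt (k := k) a y (PowerSeries.coeff 1 (uy n k l)) = η := by
    simp only [uy, PowerSeries.coeff_mk]
    rw [dif_pos (by omega)]
    simp [pt, hη]
  -- the derivation which is left over
  let D : JR n k → R := fun P => η ^ (2 * k) * ∑ v, pt a y (pderiv (Sum.inr v) P) * θ v +
    -∑ v ∈ G, θ v * pt a y (V v P)
  have hΔ : IsD (pt a y) fun P => ∑ v, pt a y (pderiv (Sum.inr v) P) * θ v := by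
    have h2 := IsD.finset (φ := pt a y) Finset.univ
      (fun (v : Fin (n + 2) × Fin (k + 1)) (P : JR n k) => θ v * pt a y (pderiv (Sum.inr v) P))
      fun v _ => (IsD.of_der _ (pderiv (Sum.inr v))).scale _
    simpa only [mul_comm (θ _)] using h2
  have hD : IsD (pt a y) D := by
    have h2 := IsD.finset (φ := pt a y) G
      (fun (v : Fin (n + 2) × Fin (k + 1)) (P : JR n k) => θ v * pt a y (V v P))
      fun v _ => (IsD.of_der _ (V v)).scale _
    have h3 := (hΔ.scale (η ^ (2 * k))).sum' (h2.scale (-1))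
    simpa only [neg_one_mul] using h3
  have hDX : ∀ v, D (X (Sum.inr v)) = 0 := by
    intro v
    have h2 : ∑ v', pt a y (pderiv (Sum.inr v') (X (Sum.inr v) : JR n k)) * θ v' = θ v := by
      rw [Finset.sum_eq_single v]
      · rw [pderiv_X_self, map_one, one_mul]
      · intro v' _ hne
        rw [pderiv_X_of_ne (by simpa using hne.symm), map_zero, zero_mul]
      · simp
    have h3 : ∑ v' ∈ G, θ v' * pt a y (V v' (X (Sum.inr v))) = η ^ (2 * k) * θ v := by
      have h4 : ∀ v' ∈ G, θ v' * pt a y (V v' (X (Sum.inr v))) = if v = v' then η ^ (2 * k) * θ v else 0 := by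
        intro v' hv'
        rw [(hV v' hv').2.1 v]
        split_ifs with h5
        · rw [map_pow, hpη, h5, mul_comm]
        · rw [map_zero, mul_zero]
      rw [Finset.sum_congr rfl h4, Finset.sum_ite_eq]
      split_ifs with h5
      · rfl
      · rw [hG v h5, mul_zero]
    change η ^ (2 * k) * ∑ v', pt a y (pderiv (Sum.inr v') (X (Sum.inr v) : JR n k)) * θ v' +
      -∑ v' ∈ G, θ v' * pt a y (V v' (X (Sum.inr v))) = 0
    rw [h2, h3, add_neg_cancel]
  have hDl : ∀ α ∉ (Finset.univ : Finset (Fin (n + 2))).finsuppAntidiag d, D (X (Sum.inl α)) = 0 := by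
    intro α hα
    change η ^ (2 * k) * ∑ v', pt a y (pderiv (Sum.inr v') (X (Sum.inl α) : JR n k)) * θ v' +
      -∑ v' ∈ G, θ v' * pt a y (V v' (X (Sum.inl α))) = 0
    rw [Finset.sum_eq_zero, Finset.sum_eq_zero]
    · simp
    · intro v' hv'
      rw [(hV v' hv').2.2 α hα, map_zero, mul_zero]
    · intro v' _
      rw [pderiv_X_of_ne (by simp), map_zero, zero_mul]
  have hDF : ∀ s ≤ k, D (Fc n d k s) = 0 := by
    intro s hs
    change η ^ (2 * k) * ∑ v', pt a y (pderiv (Sum.inr v') (Fc n d k s)) * θ v' +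
      -∑ v' ∈ G, θ v' * pt a y (V v' (Fc n d k s)) = 0
    rw [hT s hs, Finset.sum_eq_zero]
    · simp
    · intro v' hv'
      rw [(hV v' hv').1.kill s hs R a y hy, mul_zero]
  obtain ⟨N, w, hw, hwD⟩ := hvsp (fun α => D (X (Sum.inl α))) hDl fun s hs => by
    rw [← hD.Fc d a y hDX hs, hDF s hs]
  have key : ∀ P : JR n k, η ^ N * D P = (w.map fun p => p.1 * pt a y (p.2 P)).sum := by
    intro P
    refine (hD.scale (η ^ N)).ext (IsD.list w) ?_ P
    rintro (α | v)
    · exact hwD α
    · rw [hDX, mul_zero]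
      symm
      refine List.sum_eq_zero fun x hx => ?_
      obtain ⟨p, hp, rfl⟩ := List.mem_map.1 hx
      rw [(hw p hp).2 v, map_zero, mul_zero]
  refine ⟨N + 2 * k, w ++ G.toList.map (fun v => (η ^ N * θ v, V v)), ?_, ?_⟩
  · intro p hp
    rcases List.mem_append.1 hp with h2 | h2
    · exact (hw p h2).1
    · obtain ⟨v, hv, rfl⟩ := List.mem_map.1 h2
      exact (hV v (Finset.mem_toList.1 hv)).1
  · intro P
    rw [List.map_append, List.sum_append, ← key P, List.map_map]
    have h2 : (List.map ((fun p : R × Derivation ℂ (JR n k) (JR n k) => p.1 * pt a y (p.2 P)) ∘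
        fun v => (η ^ N * θ v, V v)) G.toList).sum = η ^ N * ∑ v ∈ G, θ v * pt a y (V v P) := by
      rw [Finset.sum_map_toList, Finset.mul_sum]
      refine Finset.sum_congr rfl fun v _ => ?_
      simp only [Function.comp]
      ring
    rw [h2]
    change _ = η ^ N * (η ^ (2 * k) * ∑ v', pt a y (pderiv (Sum.inr v') P) * θ v' +
      -∑ v' ∈ G, θ v' * pt a y (V v' P)) + _
    ring

end Pool.Agent.H57.UGB
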