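import Pool.Agent.H5.UGB.Span
import Pool.Agent.H37.UGB.Fld1
import Pool.Agent.H38.UG.VspF

/-!
# The slanted fields span the tangent vectors along the fibre: final form
-/

set_option autoImplicit false

open MvPolynomial

namespace Pool.Agent.H57.UGB

open Pool.Agent.H47.KB

theorem span_fld (n d k : ℕ) (hk : 1 ≤ k) (hd : k + 1 ≤ d) (l : Fin (n + 2)) (hl : l ≠ 0)
    (R : Type) [CommRing R] [Algebra ℂ R] (a : (Fin (n + 2) →₀ ℕ) → R) (y : Fin (n + 2) → PowerSeries R)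
    (hy : y 0 = 1) (θ : Fin (n + 2) × Fin (k + 1) → R) (h0 : ∀ s, θ (0, s) = 0) (h1 : ∀ j, θ (j, 0) = 0)
    (hT : ∀ s ≤ k, ∑ v, pt a y (pderiv (Sum.inr v) (Fc n d k s)) * θ v = 0) :
    ∃ (N : ℕ) (w : List (R × Derivation ℂ (JR n k) (JR n k))), (∀ p ∈ w, IsFld n d k p.2) ∧
      ∀ P : JR n k, PowerSeries.coeff 1 (y l) ^ N * ∑ v, pt a y (pderiv (Sum.inr v) P) * θ v =
        (w.map fun p => p.1 * pt a y (p.2 P)).sum :=
  span_fld_of n d k l R a y (fun j hj s0 hs => fld1 n d k hk hd l hl j hj s0 hs)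
    (fun g hg hT => vsp n d k hk hd l hl R a y hy g hg hT) hk hy θ h0 h1 hT

end Pool.Agent.H57.UGB
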